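import Pool.Agent.helper90.IV.Spec

/-!
# MP_26dbae_co: row EXK
-/

set_option autoImplicit false

open scoped BigOperators

namespace Pool.Agent.helper52.IV

open Pool.Agent.helper23.TH Pool.Agent.KS Pool.Agent.IV

noncomputable section

open Classical

theorem cardPi {V : Type} [Fintype V] (s : ℕ) (F : Finset V) :
    (Finset.univ.filter fun z : Fin s → V => ∀ i, z i ∈ F).card = F.card ^ s := by
  rw [← Fintype.card_piFinset_const F s]
  congr 1
  ext z
  simp [Fintype.mem_piFinset]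

theorem cardPoor {V : Type} [Fintype V] (s : ℕ) (F P : Finset V) :
    (Finset.univ.filter fun z : Fin s → V => (∀ i, z i ∈ F) ∧ ∃ i, z i ∈ P).card ≤
      s * (P.card * F.card ^ (s - 1)) := by
  have h1 : (Finset.univ.filter fun z : Fin s → V => (∀ i, z i ∈ F) ∧ ∃ i, z i ∈ P) ⊆
      Finset.univ.biUnion fun i : Fin s => Fintype.piFinset fun j => if j = i then P else F := by
    intro z hz
    rw [Finset.mem_filter] at hz
    obtain ⟨-, hF, i, hi⟩ := hz
    rw [Finset.mem_biUnion]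
    refine ⟨i, Finset.mem_univ _, ?_⟩
    rw [Fintype.mem_piFinset]
    intro j
    by_cases hj : j = i
    · rw [if_pos hj, hj]; exact hi
    · rw [if_neg hj]; exact hF j
  refine (Finset.card_le_card h1).trans (Finset.card_biUnion_le.trans ?_)
  have h2 : ∀ i : Fin s, (Fintype.piFinset fun j => if j = i then P else F).card =
      P.card * F.card ^ (s - 1) := by
    intro i
    rw [Fintype.card_piFinset]
    rw [← Finset.mul_prod_erase Finset.univ _ (Finset.mem_univ i)]
    rw [if_pos rfl]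
    congr 1
    rw [Finset.prod_congr rfl (g := fun _ => F.card)]
    · rw [Finset.prod_const, Finset.card_erase_of_mem (Finset.mem_univ i), Finset.card_univ,
        Fintype.card_fin]
    · intro j hj
      rw [if_neg (Finset.ne_of_mem_erase hj)]
  rw [Finset.sum_congr rfl fun i _ => h2 i, Finset.sum_const, Finset.card_univ, Fintype.card_fin,
    smul_eq_mul]

/-- common neighbours in the sense of `cd` -/
def cN {V : Type} [Fintype V] (A : V → V → Prop) (w a : V) : Finset V :=
  Finset.univ.filter fun m => A w m ∧ A a m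

/-- poor neighbours of `w` -/
def poor {V : Type} [Fintype V] (A : V → V → Prop) (w : V) (X : Finset V) (t : ℝ) : Finset V :=
  Finset.univ.filter fun v => A w v ∧ (degY A X v : ℝ) < t

theorem sumPoor {V : Type} [Fintype V] (A : V → V → Prop) (hs : ∀ a b, A a b → A b a) (w : V)
    (X : Finset V) (t : ℝ) (ht : 0 ≤ t) :
    ∑ a ∈ X, ((cN A w a ∩ poor A w X t).card : ℝ) ≤ deg A w * t := by
  have h1 : ∀ a ∈ X, ((cN A w a ∩ poor A w X t).card : ℝ) =
      ∑ v ∈ poor A w X t, if A v a then (1 : ℝ) else 0 := by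
    intro a _
    rw [Finset.sum_boole]
    congr 2
    ext v
    simp only [cN, poor, Finset.mem_inter, Finset.mem_filter, Finset.mem_univ, true_and]
    constructor
    · rintro ⟨⟨h1, h2⟩, h3, h4⟩
      exact ⟨⟨h3, h4⟩, hs _ _ h2⟩
    · rintro ⟨⟨h3, h4⟩, h2⟩
      exact ⟨⟨h3, hs _ _ h2⟩, h3, h4⟩
  rw [Finset.sum_congr rfl h1, Finset.sum_comm]
  have h2 : ∀ v ∈ poor A w X t, (∑ a ∈ X, if A v a then (1 : ℝ) else 0) ≤ t := by
    intro v hv
    rw [Finset.sum_boole]
    have h3 : (degY A X v : ℝ) < t := by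
      unfold poor at hv
      exact (Finset.mem_filter.1 hv).2.2
    exact h3.le
  refine (Finset.sum_le_sum h2).trans ?_
  rw [Finset.sum_const, nsmul_eq_mul]
  refine mul_le_mul_of_nonneg_right ?_ ht
  have h3 : (poor A w X t).card ≤ deg A w := by
    unfold poor deg
    refine Finset.card_le_card ?_
    intro v hv
    rw [Finset.mem_filter] at hv ⊢
    exact ⟨hv.1, hv.2.1⟩
  exact_mod_cast h3

/-- choice of a subrelation with exactly `D₁` neighbours in `X` -/
theorem subRel {V : Type} [Fintype V] (A : V → V → Prop) (M X : Finset V) (D₁ : ℕ)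
    (h : ∀ x ∈ M, D₁ ≤ degY A X x) :
    ∃ B : V → V → Prop, (∀ a b, B a b → A a b) ∧ ∀ x ∈ M, degY B X x = D₁ := by
  have h1 : ∀ x : V, ∃ S : Finset V, S ⊆ X.filter (fun v => A x v) ∧ (x ∈ M → S.card = D₁) := by
    intro x
    by_cases hx : x ∈ M
    · obtain ⟨S, hS, hc⟩ := Finset.exists_subset_card_eq (h x hx)
      exact ⟨S, hS, fun _ => hc⟩
    · exact ⟨∅, Finset.empty_subset _, fun hx' => absurd hx' hx⟩
  choose S hS hc using h1
  refine ⟨fun x v => v ∈ S x, ?_, ?_⟩
  · intro a b hb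
    exact (Finset.mem_filter.1 (hS a hb)).2
  · intro x hx
    rw [← hc x hx]
    have h2 : X.filter (fun v => v ∈ S x) = S x :=
      Finset.filter_mem_eq_inter.trans (Finset.inter_eq_right.2 fun v hv =>
        (Finset.mem_filter.1 (hS x hv)).1)
    have h3 : degY (fun x v => v ∈ S x) X x = (X.filter (fun v => v ∈ S x)).card := by
      unfold degY
      refine Finset.card_bij (fun v _ => v) ?_ (fun _ _ _ _ h => h) ?_
      · intro v hv
        simp only [Finset.mem_filter] at hv ⊢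
        exact hv
      · intro v hv
        refine ⟨v, ?_, rfl⟩
        simp only [Finset.mem_filter] at hv ⊢
        exact hv
    rw [h3, h2]

theorem EXK (hHV : HV_stmt) : EXK_stmt := by
  intro s h pj q hs
  obtain ⟨Ch₀, hCh⟩ := hHV s h pj q hs
  obtain ⟨L', hL', hHV'⟩ := hCh Ch₀ le_rfl (1 / 4) (by norm_num)
  have hs0 : (0 : ℝ) < s := by
    have : 0 < s := by omega
    exact_mod_cast this
  set η : ℝ := 1 / (2 ^ (s + 1) * s) with hη
  have hη0 : 0 < η := by rw [hη]; positivity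
  refine ⟨Ch₀, 2 ^ s * L' / η, 4 * L' / η ^ (s - 2), by positivity, by positivity, ?_⟩
  intro V K _ A lam hpr hRB w k X hk hX
  have hkr : (1 : ℝ) ≤ k := by exact_mod_cast hk
  have hk0 : (0 : ℝ) < k := by linarith
  set D : ℝ := (deg A w : ℝ) with hD
  have hD0 : 0 ≤ D := by rw [hD]; positivity
  have hcd : ∀ a, cd A w a = (cN A w a).card := fun a => rfl
  have hcdR : ∀ a, (cd A w a : ℝ) = ((cN A w a).card : ℝ) := fun a => by rw [hcd a]
  -- the light part
  set Lt : V → Finset (Fin s → V) := fun a =>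
    Finset.univ.filter fun z : Fin s → V => (∀ i, A w (z i) ∧ A a (z i)) ∧ cn A z < Ch₀ with hLt
  have hsumLt : 0 ≤ ∑ a ∈ X, ((Lt a).card : ℝ) := Finset.sum_nonneg fun a _ => by positivity
  have hup : ∑ a ∈ X, (cd A w a : ℝ) ^ s ≤ 2 ^ s * (k : ℝ) ^ s * X.card := by
    have : ∀ a ∈ X, (cd A w a : ℝ) ^ s ≤ 2 ^ s * (k : ℝ) ^ s := by
      intro a ha
      have h1 : (cd A w a : ℝ) ≤ 2 * k := by
        have := (hX a ha).2.2
        have h2 : (cd A w a : ℝ) < ((2 * k : ℕ) : ℝ) := by exact_mod_cast this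
        push_cast at h2
        linarith
      calc (cd A w a : ℝ) ^ s ≤ (2 * (k : ℝ)) ^ s := pow_le_pow_left₀ (by positivity) h1 s
        _ = 2 ^ s * (k : ℝ) ^ s := by rw [mul_pow]
    calc ∑ a ∈ X, (cd A w a : ℝ) ^ s ≤ ∑ _a ∈ X, 2 ^ s * (k : ℝ) ^ s := Finset.sum_le_sum this
      _ = 2 ^ s * (k : ℝ) ^ s * X.card := by rw [Finset.sum_const, nsmul_eq_mul]; ring
  have hlow : (k : ℝ) ^ s * X.card ≤ ∑ a ∈ X, (cd A w a : ℝ) ^ s := by
    have : ∀ a ∈ X, (k : ℝ) ^ s ≤ (cd A w a : ℝ) ^ s := by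
      intro a ha
      have h1 : (k : ℝ) ≤ (cd A w a : ℝ) := by exact_mod_cast (hX a ha).2.1
      exact pow_le_pow_left₀ hk0.le h1 s
    calc (k : ℝ) ^ s * X.card = ∑ _a ∈ X, (k : ℝ) ^ s := by
          rw [Finset.sum_const, nsmul_eq_mul]; ring
      _ ≤ _ := Finset.sum_le_sum this
  have hC2n : 0 ≤ 2 ^ s * L' / η * ((k : ℝ) ^ (s - 1) * D) := by positivity
  by_cases hcase1 : (k : ℝ) ^ (s - 1) < 4 * L' / η ^ (s - 2) * D ^ (s - 2)
  · rw [if_pos hcase1]
    linarith
  rw [if_neg hcase1, add_zero]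
  push Not at hcase1
  have hkk : (k : ℝ) ^ s = (k : ℝ) ^ (s - 1) * k := by
    rw [← pow_succ]
    congr 1
    omega
  by_cases hcase2 : η * X.card * k < L' * D
  · have h1 : 2 ^ s * (k : ℝ) ^ s * X.card ≤ 2 ^ s * L' / η * ((k : ℝ) ^ (s - 1) * D) := by
      have h2 : (k : ℝ) * X.card ≤ L' * D / η := by
        rw [le_div_iff₀ hη0]
        nlinarith
      calc 2 ^ s * (k : ℝ) ^ s * X.card = 2 ^ s * (k : ℝ) ^ (s - 1) * (k * X.card) := by
            rw [hkk]; ring
        _ ≤ 2 ^ s * (k : ℝ) ^ (s - 1) * (L' * D / η) := by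
            refine mul_le_mul_of_nonneg_left h2 (by positivity)
        _ = 2 ^ s * L' / η * ((k : ℝ) ^ (s - 1) * D) := by ring
    linarith
  push Not at hcase2
  -- main case
  by_contra hcon
  push Not at hcon
  have hS : 2 * ∑ a ∈ X, ((Lt a).card : ℝ) < ∑ a ∈ X, (cd A w a : ℝ) ^ s := by linarith
  have hSpos : 0 < ∑ a ∈ X, (cd A w a : ℝ) ^ s := by linarith
  have hXne : X.Nonempty := by
    rcases X.eq_empty_or_nonempty with h0 | h0
    · rw [h0, Finset.sum_empty] at hSpos
      exact absurd hSpos (lt_irrefl _)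
    · exact h0
  obtain ⟨a₀, ha₀⟩ := hXne
  have hXc : (0 : ℝ) < X.card := by
    have : 0 < X.card := Finset.card_pos.2 ⟨a₀, ha₀⟩
    exact_mod_cast this
  have hDpos : 0 < D := by
    have h1 : k ≤ cd A w a₀ := (hX a₀ ha₀).2.1
    have h2 : cd A w a₀ ≤ deg A w := by
      unfold cd deg
      refine Finset.card_le_card ?_
      intro v hv
      rw [Finset.mem_filter] at hv ⊢
      exact ⟨hv.1, hv.2.1⟩
    have h3 : 0 < deg A w := by omega
    rw [hD]
    exact_mod_cast h3
  set t : ℝ := η * X.card * k / D with ht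
  have ht0 : 0 < t := by rw [ht]; positivity
  have htL : L' ≤ t := by
    rw [ht, le_div_iff₀ hDpos]
    exact hcase2
  -- the good tuples
  set P : Finset V := poor A w X t with hP
  set G : V → Finset (Fin s → V) := fun a =>
    Finset.univ.filter fun z : Fin s → V => (∀ i, z i ∈ cN A w a \ P) ∧ Ch₀ ≤ cn A z with hG
  have hsplit : ∀ a ∈ X, (cd A w a : ℝ) ^ s ≤ (Lt a).card +
      s * (((cN A w a ∩ P).card : ℝ) * (2 * k) ^ (s - 1)) + (G a).card := by
    intro a ha
    have h1 : (Finset.univ.filter fun z : Fin s → V => ∀ i, z i ∈ cN A w a) ⊆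
        Lt a ∪ ((Finset.univ.filter fun z : Fin s → V => (∀ i, z i ∈ cN A w a) ∧
          ∃ i, z i ∈ cN A w a ∩ P) ∪ G a) := by
      intro z hz
      rw [Finset.mem_filter] at hz
      rw [Finset.mem_union, Finset.mem_union]
      by_cases hz1 : cn A z < Ch₀
      · left
        rw [hLt]
        simp only [Finset.mem_filter, Finset.mem_univ, true_and]
        refine ⟨fun i => ?_, hz1⟩
        have := hz.2 i
        unfold cN at this
        exact (Finset.mem_filter.1 this).2
      · right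
        by_cases hz2 : ∃ i, z i ∈ cN A w a ∩ P
        · left
          rw [Finset.mem_filter]
          exact ⟨Finset.mem_univ _, hz.2, hz2⟩
        · right
          rw [hG]
          simp only [Finset.mem_filter, Finset.mem_univ, true_and]
          refine ⟨fun i => ?_, by omega⟩
          rw [Finset.mem_sdiff]
          refine ⟨hz.2 i, fun hi => hz2 ⟨i, Finset.mem_inter.2 ⟨hz.2 i, hi⟩⟩⟩
    have h2 := Finset.card_le_card h1
    rw [cardPi] at h2
    have h3 := (h2.trans (Finset.card_union_le _ _)).trans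
      (Nat.add_le_add_left (Finset.card_union_le _ _) _)
    have h4 := cardPoor s (cN A w a) (cN A w a ∩ P)
    have h5 : ((cN A w a).card : ℝ) ≤ 2 * k := by
      have := (hX a ha).2.2
      rw [hcd a] at this
      have h6 : ((cN A w a).card : ℝ) < ((2 * k : ℕ) : ℝ) := by exact_mod_cast this
      push_cast at h6
      linarith
    have h6 : ((cN A w a).card : ℝ) ^ (s - 1) ≤ (2 * (k : ℝ)) ^ (s - 1) :=
      pow_le_pow_left₀ (by positivity) h5 _
    have h7 : ((s * ((cN A w a ∩ P).card * (cN A w a).card ^ (s - 1)) : ℕ) : ℝ) ≤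
        s * (((cN A w a ∩ P).card : ℝ) * (2 * k) ^ (s - 1)) := by
      push_cast
      refine mul_le_mul_of_nonneg_left ?_ hs0.le
      exact mul_le_mul_of_nonneg_left h6 (by positivity)
    have h8 : ((cN A w a).card ^ s : ℝ) ≤ ((Lt a).card : ℝ) +
        (((s * ((cN A w a ∩ P).card * (cN A w a).card ^ (s - 1)) : ℕ) : ℝ) + (G a).card) := by
      have h9 : (cN A w a).card ^ s ≤ (Lt a).card +
          (s * ((cN A w a ∩ P).card * (cN A w a).card ^ (s - 1)) + (G a).card) := by omega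
      exact_mod_cast h9
    rw [hcdR a]
    linarith
  have hsum1 := Finset.sum_le_sum hsplit
  rw [Finset.sum_add_distrib, Finset.sum_add_distrib] at hsum1
  have hpoor : ∑ a ∈ X, (s : ℝ) * (((cN A w a ∩ P).card : ℝ) * (2 * k) ^ (s - 1)) ≤
      1 / 4 * ∑ a ∈ X, (cd A w a : ℝ) ^ s := by
    have h1 : ∑ a ∈ X, (s : ℝ) * (((cN A w a ∩ P).card : ℝ) * (2 * k) ^ (s - 1)) =
        s * (2 * k) ^ (s - 1) * ∑ a ∈ X, ((cN A w a ∩ P).card : ℝ) := by
      rw [Finset.mul_sum]
      refine Finset.sum_congr rfl fun a _ => ?_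
      ring
    have h2 := sumPoor A hpr.symm w X t ht0.le
    have h3 : D * t = η * X.card * k := by
      rw [ht]
      field_simp
    rw [h1]
    calc s * (2 * (k : ℝ)) ^ (s - 1) * ∑ a ∈ X, ((cN A w a ∩ P).card : ℝ)
        ≤ s * (2 * (k : ℝ)) ^ (s - 1) * (D * t) := by
          refine mul_le_mul_of_nonneg_left h2 (by positivity)
      _ = 1 / 4 * ((k : ℝ) ^ s * X.card) := by
          rw [h3, hη, hkk, mul_pow]
          have h4 : (2 : ℝ) ^ (s + 1) = 2 ^ (s - 1) * 4 := by
            have : s + 1 = (s - 1) + 2 := by omega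
            rw [this, pow_add]
            norm_num
          rw [h4]
          field_simp
      _ ≤ 1 / 4 * ∑ a ∈ X, (cd A w a : ℝ) ^ s := by
          refine mul_le_mul_of_nonneg_left hlow (by norm_num)
  have hGsum : ∑ a ∈ X, 1 / 4 * (cd A w a : ℝ) ^ s < ∑ a ∈ X, ((G a).card : ℝ) := by
    rw [← Finset.mul_sum]
    linarith
  obtain ⟨a, haX, haG⟩ := Finset.exists_lt_of_sum_lt hGsum
  -- the set M
  set M : Finset V := cN A w a \ P with hM
  have hGc : (G a).card ≤ M.card ^ s := by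
    rw [← cardPi s M]
    refine Finset.card_le_card ?_
    intro z hz
    rw [hG] at hz
    simp only [Finset.mem_filter, Finset.mem_univ, true_and] at hz ⊢
    exact hz.1
  have hMcd : (M.card : ℝ) ≤ cd A w a := by
    rw [hcdR a]
    have : M.card ≤ (cN A w a).card := Finset.card_le_card Finset.sdiff_subset
    exact_mod_cast this
  have hMlow : (k : ℝ) / 4 ≤ M.card := by
    have hkc : (k : ℝ) ≤ cd A w a := by exact_mod_cast (hX a haX).2.1
    by_contra hlt
    push Not at hlt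
    have h1 : (M.card : ℝ) ≤ cd A w a / 4 := by linarith
    have h2 : (M.card : ℝ) ^ s ≤ (cd A w a / 4 : ℝ) ^ s := pow_le_pow_left₀ (by positivity) h1 s
    have h3 : (cd A w a / 4 : ℝ) ^ s ≤ 1 / 4 * (cd A w a : ℝ) ^ s := by
      rw [div_pow]
      have h4 : (4 : ℝ) ≤ 4 ^ s := by
        calc (4 : ℝ) = 4 ^ 1 := by norm_num
          _ ≤ 4 ^ s := pow_le_pow_right₀ (by norm_num) (by omega)
      rw [div_le_iff₀ (by positivity)]
      have h5 : 0 ≤ (cd A w a : ℝ) ^ s := by positivity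
      nlinarith
    have h4 : ((G a).card : ℝ) ≤ (M.card : ℝ) ^ s := by exact_mod_cast hGc
    linarith
  have hMpos : (0 : ℝ) < M.card := by linarith [div_pos hk0 (by norm_num : (0 : ℝ) < 4)]
  have hMne : M.Nonempty := by
    rw [← Finset.card_pos]
    exact_mod_cast hMpos
  -- the relation B
  set D₁ : ℕ := ⌈t⌉₊ with hD₁
  have hD₁t : t ≤ D₁ := Nat.le_ceil t
  have hrich : ∀ x ∈ M, D₁ ≤ degY A X x := by
    intro x hx
    rw [hM, Finset.mem_sdiff] at hx
    rw [hD₁, Nat.ceil_le]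
    by_contra hlt
    push Not at hlt
    refine hx.2 ?_
    rw [hP]
    unfold poor
    rw [Finset.mem_filter]
    refine ⟨Finset.mem_univ _, ?_, hlt⟩
    have := hx.1
    unfold cN at this
    exact (Finset.mem_filter.1 this).2.1
  obtain ⟨B, hBA, hBd⟩ := subRel A M X D₁ hrich
  refine hRB (hHV' V K A B lam M X D₁ hpr hBA hMne hBd ?_ ?_ (htL.trans hD₁t))
  · have h1 : (G a).card ≤
        (Finset.univ.filter fun z : Fin s → V => (∀ i, z i ∈ M) ∧ Ch₀ ≤ cn A z).card := le_of_eq rfl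
    have h2 : (M.card : ℝ) ^ s ≤ (cd A w a : ℝ) ^ s := pow_le_pow_left₀ (by positivity) hMcd s
    have h3 : ((G a).card : ℝ) ≤
        ((Finset.univ.filter fun z : Fin s → V => (∀ i, z i ∈ M) ∧ Ch₀ ≤ cn A z).card : ℝ) := by
      exact_mod_cast h1
    linarith
  · have h1 : t ^ (s - 2) ≤ (D₁ : ℝ) ^ (s - 2) := pow_le_pow_left₀ ht0.le hD₁t _
    have h2 : (k : ℝ) / 4 * t ^ (s - 2) ≤ M.card * (D₁ : ℝ) ^ (s - 2) :=
      mul_le_mul hMlow h1 (by positivity) hMpos.le
    refine le_trans ?_ h2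
    have h3 : t ^ (s - 2) = η ^ (s - 2) * (X.card : ℝ) ^ (s - 2) * (k : ℝ) ^ (s - 2) / D ^ (s - 2) := by
      rw [ht, div_pow, mul_pow, mul_pow]
    have h4 : (k : ℝ) ^ (s - 1) = (k : ℝ) ^ (s - 2) * k := by
      rw [← pow_succ]
      congr 1
      omega
    have h5 : (k : ℝ) / 4 * t ^ (s - 2) =
        (k : ℝ) ^ (s - 1) * (η ^ (s - 2) * (X.card : ℝ) ^ (s - 2) / (4 * D ^ (s - 2))) := by
      rw [h3, h4]
      field_simp
    rw [h5]
    calc L' * (X.card : ℝ) ^ (s - 2) = 4 * L' / η ^ (s - 2) * D ^ (s - 2) *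
          (η ^ (s - 2) * (X.card : ℝ) ^ (s - 2) / (4 * D ^ (s - 2))) := by
          field_simp
      _ ≤ (k : ℝ) ^ (s - 1) * (η ^ (s - 2) * (X.card : ℝ) ^ (s - 2) / (4 * D ^ (s - 2))) := by
          refine mul_le_mul_of_nonneg_right hcase1 (by positivity)

end

end Pool.Agent.helper52.IV
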